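import Pool.Agent.Q32.Coin
import Pool.Agent.Q32.Word

/-!
# MP_25f285_al: integer valued quasi-Cayley metrics need not be Banach metrics

Every infinite finitely generated group, with any finite symmetric generating set `S`, carries an
integer valued, left-invariant, proper metric `d` with `d_S ≤ d ≤ 2 d_S` (and even
`d ≤ (1 + ε) d_S + C_ε` for every `ε > 0`) for which the zero function is a metric-functional.
The metric is `d = f ∘ d_S` for a nondecreasing subadditive function `f : ℕ → ℕ` with arbitrarily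
long plateaus.
-/

namespace Pool.Agent.Results.MP_25f285_al.NoBanachProperty

open Filter Topology

variable {G : Type*} [Group G]

/-- The Cayley metric `d_S(x,y)`: the least length of a word in `S` representing `x⁻¹ y`. -/
noncomputable def cayleyDist (S : Set G) (x y : G) : ℕ :=
  sInf {n | ∃ l : List G, (∀ s ∈ l, s ∈ S) ∧ l.prod = x⁻¹ * y ∧ l.length = n}

/-- `S` is a finite symmetric generating set of `G`. -/
def IsGenSet (S : Set G) : Prop :=
  S.Finite ∧ (∀ s ∈ S, s⁻¹ ∈ S) ∧ Subgroup.closure S = ⊤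

/-- `d` is a metric on `G`. -/
def IsMetric (d : G → G → ℝ) : Prop :=
  (∀ x y, d x y = 0 ↔ x = y) ∧ (∀ x y, d x y = d y x) ∧ ∀ x y z, d x z ≤ d x y + d y z

/-- `d` is left-invariant. -/
def LeftInvariant (d : G → G → ℝ) : Prop := ∀ g x y, d (g * x) (g * y) = d x y

/-- `d` is proper: every ball is finite. -/
def IsProper (d : G → G → ℝ) : Prop := ∀ (x : G) (r : ℝ), {y | d x y ≤ r}.Finite

/-- `d` is integer valued. -/
def IntegerValued (d : G → G → ℝ) : Prop := ∀ x y, ∃ n : ℤ, d x y = n

/-- The identity map is a quasi-isometry between `d` and a Cayley metric. -/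
def QuasiIsometricToCayley (d : G → G → ℝ) : Prop :=
  ∃ S : Set G, IsGenSet S ∧ ∃ C : ℝ, 1 ≤ C ∧
    ∀ x y, C⁻¹ * cayleyDist S x y - C ≤ d x y ∧ d x y ≤ C * cayleyDist S x y + C

/-- The boundary `∂(G,d)`: all pointwise limits of `b_{x_n}(y) = d(x_n,y) - d(x_n,e)` along
sequences `x_n` that eventually leave every finite set. -/
def metricFunctionals (d : G → G → ℝ) : Set (G → ℝ) :=
  {f | ∃ x : ℕ → G, (∀ F : Set G, F.Finite → ∀ᶠ n in atTop, x n ∉ F) ∧
    ∀ y, Tendsto (fun n => d (x n) y - d (x n) 1) atTop (𝓝 (f y))}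

/-- `f` is unbounded: `sup |f| = ∞`. -/
def IsUnbounded (f : G → ℝ) : Prop := ∀ C : ℝ, ∃ y, C < |f y|

/-- `d` is a Banach metric. -/
def IsBanachMetric (d : G → G → ℝ) : Prop :=
  IsMetric d ∧ QuasiIsometricToCayley d ∧ ∀ f ∈ metricFunctionals d, IsUnbounded f

theorem cayleyDist_eq (S : Set G) (x y : G) : cayleyDist S x y = Q32.wl S (x⁻¹ * y) := rfl

/-- **Disproof, for every infinite finitely generated group.** -/
theorem result {G : Type*} [Group G] [Infinite G] (S : Set G) (hS : IsGenSet S) :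
    ∃ d : G → G → ℝ, IsMetric d ∧ IntegerValued d ∧ LeftInvariant d ∧ IsProper d ∧
      (∀ x y, (cayleyDist S x y : ℝ) ≤ d x y ∧ d x y ≤ 2 * cayleyDist S x y) ∧
      (∀ ε : ℝ, 0 < ε → ∃ C : ℝ, ∀ x y, d x y ≤ (1 + ε) * cayleyDist S x y + C) ∧
      QuasiIsometricToCayley d ∧
      (fun _ => (0 : ℝ)) ∈ metricFunctionals d ∧ ¬ IsBanachMetric d := by
  obtain ⟨hfin, hinv, hgen⟩ := hS
  let d : G → G → ℝ := fun x y => (Q32.Coin.f (cayleyDist S x y) : ℝ)
  have hle : ∀ x y, (cayleyDist S x y : ℝ) ≤ d x y := fun x y => by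
    simp only [d]
    exact_mod_cast Q32.Coin.le_f (cayleyDist S x y)
  have hle2 : ∀ x y, d x y ≤ 2 * cayleyDist S x y := fun x y => by
    simp only [d]
    exact_mod_cast Q32.Coin.f_le_two (cayleyDist S x y)
  have hmet : IsMetric d := by
    refine ⟨fun x y => ?_, fun x y => ?_, fun x y z => ?_⟩
    · constructor
      · intro h
        have h1 := hle x y
        rw [h] at h1
        have h2 : cayleyDist S x y = 0 := by exact_mod_cast le_antisymm h1 (Nat.cast_nonneg _)
        rw [cayleyDist_eq, Q32.wl_eq_zero hgen hinv] at h2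
        exact inv_mul_eq_one.1 h2
      · rintro rfl
        simp [d, cayleyDist_eq, Q32.wl_one, Q32.Coin.f_zero]
    · have : cayleyDist S x y = cayleyDist S y x := by
        rw [cayleyDist_eq, cayleyDist_eq, ← Q32.wl_inv hgen hinv]; simp
      simp [d, this]
    · have h1 : cayleyDist S x z ≤ cayleyDist S x y + cayleyDist S y z := by
        have := Q32.wl_mul_le hgen hinv (x⁻¹ * y) (y⁻¹ * z)
        simpa [cayleyDist_eq, mul_assoc] using this
      have h2 := (Q32.Coin.f_mono h1).trans (Q32.Coin.f_add _ _)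
      simp only [d]
      exact_mod_cast h2
  have hqi : QuasiIsometricToCayley d := by
    refine ⟨S, ⟨hfin, hinv, hgen⟩, 2, by norm_num, fun x y => ?_⟩
    have h1 := hle x y
    have h2 := hle2 x y
    have h3 : (0 : ℝ) ≤ cayleyDist S x y := Nat.cast_nonneg _
    constructor <;> linarith
  have hzero : (fun _ => (0 : ℝ)) ∈ metricFunctionals d := by
    -- points in the middle of the plateaus
    choose g hg using fun n : ℕ => Q32.exists_wl_eq hfin hgen hinv n
    let r : ℕ → ℕ := fun n => 8 ^ (n + 1) - 4 ^ n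
    have hpow : ∀ n : ℕ, 4 * 4 ^ n ≤ 8 ^ (n + 1) := fun n => by
      have : (4 : ℕ) ^ (n + 1) ≤ 8 ^ (n + 1) := Nat.pow_le_pow_left (by norm_num) _
      rwa [pow_succ, mul_comm] at this
    have hfour : ∀ n : ℕ, n < 4 ^ n := fun n => Nat.lt_pow_self (by norm_num)
    have hp4 : ∀ n : ℕ, (4 : ℕ) ^ (n + 1) = 4 * 4 ^ n := fun n => by rw [pow_succ]; ring
    have hr : ∀ n : ℕ, n < r n := by
      intro n
      have h1 := hfour n
      have h4 := hpow n
      simp only [r]
      generalize 8 ^ (n + 1) = A at *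
      generalize 4 ^ n = B at *
      omega
    refine ⟨fun n => (g (r n))⁻¹, ?_, ?_⟩
    · intro F hF
      obtain ⟨M, hM⟩ := (hF.image (Q32.wl S)).bddAbove
      filter_upwards [eventually_ge_atTop M] with n hn hmem
      have h1 := hM ⟨_, hmem, rfl⟩
      rw [Q32.wl_inv hgen hinv, hg] at h1
      have := hr n
      omega
    · intro y
      refine tendsto_const_nhds.congr' ?_
      filter_upwards [eventually_ge_atTop (Q32.wl S y)] with n hn
      have hy4 : Q32.wl S y ≤ 4 ^ n := hn.trans (Nat.lt_pow_self (by norm_num)).le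
      have e1 : d (g (r n))⁻¹ 1 = ((8 ^ (n + 1) + 4 ^ (n + 1) : ℕ) : ℝ) := by
        simp only [d, cayleyDist_eq, inv_inv, mul_one, hg]
        rw [Q32.Coin.plateau n (r n)]
        · have := hpow n
          simp only [r]
          rw [hp4 n]
          generalize 8 ^ (n + 1) = A at *
          generalize 4 ^ n = B at *
          omega
        · exact Nat.sub_le _ _
      have e2 : d (g (r n))⁻¹ y = ((8 ^ (n + 1) + 4 ^ (n + 1) : ℕ) : ℝ) := by
        simp only [d, cayleyDist_eq, inv_inv]
        have t1 := Q32.wl_mul_le hgen hinv (g (r n)) y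
        have t2 := Q32.wl_mul_le hgen hinv (g (r n) * y) y⁻¹
        rw [mul_inv_cancel_right, Q32.wl_inv hgen hinv] at t2
        rw [hg] at t1 t2
        have h1 := hpow n
        have h5 : r n = 8 ^ (n + 1) - 4 ^ n := rfl
        generalize Q32.wl S (g (r n) * y) = w at t1 t2 ⊢
        generalize r n = R at t1 t2 h5
        rw [Q32.Coin.plateau n w]
        · rw [hp4 n]
          generalize 8 ^ (n + 1) = A at *
          generalize 4 ^ n = B at *
          omega
        · generalize 8 ^ (n + 1) = A at *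
          generalize 4 ^ n = B at *
          omega
      rw [e1, e2, sub_self]
  refine ⟨d, hmet, ?_, ?_, ?_, fun x y => ⟨hle x y, hle2 x y⟩, ?_, hqi, hzero, ?_⟩
  · intro x y
    exact ⟨(Q32.Coin.f (cayleyDist S x y) : ℤ), by simp [d]⟩
  · intro g x y
    simp [d, cayleyDist_eq, mul_assoc]
  · intro x r
    have hfb := (Q32.wl_ball_finite hfin hgen hinv ⌊r⌋₊).image fun g => x * g
    refine hfb.subset ?_
    intro y hy
    refine ⟨x⁻¹ * y, ?_, by simp⟩
    have h1 := (hle x y).trans hy
    exact Nat.le_floor h1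
  · intro ε hε
    obtain ⟨n, hn⟩ := exists_nat_gt (1 / ε)
    refine ⟨2 * 8 ^ n, fun x y => ?_⟩
    have h1 := Q32.Coin.f_asymp n (cayleyDist S x y)
    have h2 : (2 : ℝ) ^ n * d x y ≤
        (2 ^ n + 1) * cayleyDist S x y + 2 ^ n * (2 * 8 ^ n) := by
      simp only [d]; exact_mod_cast h1
    have hpos : (0 : ℝ) < 2 ^ n := by positivity
    have h3 : 1 ≤ ε * 2 ^ n := by
      have h4 : (n : ℝ) ≤ 2 ^ n := by exact_mod_cast (Nat.lt_two_pow_self (n := n)).le
      have h5 : 1 / ε * ε ≤ 2 ^ n * ε :=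
        mul_le_mul_of_nonneg_right (hn.le.trans h4) hε.le
      rw [one_div_mul_cancel hε.ne'] at h5
      linarith
    have h6 : (0 : ℝ) ≤ cayleyDist S x y := Nat.cast_nonneg _
    have h7 : (2 : ℝ) ^ n * d x y ≤
        2 ^ n * ((1 + ε) * cayleyDist S x y + 2 * 8 ^ n) := by nlinarith
    exact le_of_mul_le_mul_left h7 hpos
  · rintro ⟨_, _, h⟩
    obtain ⟨y, hy⟩ := h _ hzero 0
    simp at hy

end Pool.Agent.Results.MP_25f285_al.NoBanachProperty
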